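import Mathlib
import Pool.Agent.H67.MinkD

set_option autoImplicit false
set_option linter.unusedSectionVars false

/-! Indecomposable lattice vectors: decomposition with small total norm, extreme vectors, and the
orthogonality of the extreme vectors of two homomorphisms. -/

namespace Pool.Agent.H91.FV

variable {d : ℕ} {L : Submodule ℤ (EuclideanSpace ℝ (Fin d))}

/-- `v` is an indecomposable (Voronoi relevant) vector. -/
def Ind (v : L) : Prop :=
  v ≠ 0 ∧ ∀ w : L, w ≠ 0 → w ≠ v →
    inner ℝ (w : EuclideanSpace ℝ (Fin d)) ((v : EuclideanSpace ℝ (Fin d)) - w) < 0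

/-- Squared norm. -/
noncomputable def nn (v : L) : ℝ := ‖(v : EuclideanSpace ℝ (Fin d))‖ ^ 2

theorem nn_nonneg (v : L) : 0 ≤ nn v := sq_nonneg _

theorem nn_pos {v : L} (h : v ≠ 0) : 0 < nn v := by
  unfold nn
  have h1 : (v : EuclideanSpace ℝ (Fin d)) ≠ 0 := by simpa using h
  have := norm_pos_iff.mpr h1
  positivity

theorem nn_neg (v : L) : nn (-v) = nn v := by simp [nn]

theorem nn_add (v w : L) : nn (v + w) = nn v + nn w +
    2 * inner ℝ (v : EuclideanSpace ℝ (Fin d)) (w : EuclideanSpace ℝ (Fin d)) := by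
  unfold nn
  rw [Submodule.coe_add, norm_add_sq_real]
  ring

theorem Ind.neg {v : L} (h : Ind v) : Ind (-v) := by
  refine ⟨neg_ne_zero.mpr h.1, fun w hw hwv => ?_⟩
  have h1 := h.2 (-w) (neg_ne_zero.mpr hw) (fun h2 => hwv (by rw [← h2, neg_neg]))
  have h2 : inner ℝ ((-w : L) : EuclideanSpace ℝ (Fin d))
      ((v : EuclideanSpace ℝ (Fin d)) - ((-w : L) : EuclideanSpace ℝ (Fin d)))
      = inner ℝ (w : EuclideanSpace ℝ (Fin d))
        (((-v : L) : EuclideanSpace ℝ (Fin d)) - w) := by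
    simp only [Submodule.coe_neg]
    rw [inner_neg_left, ← inner_neg_right]
    congr 1
    abel
  rw [h2] at h1
  exact h1

/-- Every lattice vector is a sum of indecomposable vectors with sum of squared norms at most its
squared norm. -/
theorem decomp (hL : DiscreteTopology L) (x : L) : ∃ l : List L, (∀ f ∈ l, Ind f) ∧ l.sum = x ∧
    (l.map nn).sum ≤ nn x := by
  by_contra hcon
  obtain ⟨z, hz, hmin⟩ := Pool.Agent.H67.Mink.exists_min_norm hL
    {x : L | ¬ ∃ l : List L, (∀ f ∈ l, Ind f) ∧ l.sum = x ∧ (l.map nn).sum ≤ nn x} ⟨x, hcon⟩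
  have hz' : ¬ ∃ l : List L, (∀ f ∈ l, Ind f) ∧ l.sum = z ∧ (l.map nn).sum ≤ nn z := hz
  have hgood : ∀ w : L, nn w < nn z → ∃ l : List L, (∀ f ∈ l, Ind f) ∧ l.sum = w ∧
      (l.map nn).sum ≤ nn w := by
    intro w hw
    by_contra hc
    have h1 := hmin w hc
    have h2 : nn z ≤ nn w := pow_le_pow_left₀ (norm_nonneg _) h1 2
    linarith
  by_cases hz0 : z = 0
  · apply hz'
    exact ⟨[], by simp, by simp [hz0], by simpa using nn_nonneg z⟩
  by_cases hi : Ind z
  · apply hz'
    exact ⟨[z], by simpa using hi, by simp, by simp⟩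
  · unfold Ind at hi
    push Not at hi
    obtain ⟨w, hw0, hwz, hw⟩ := hi hz0
    have h1 : nn z = nn w + nn (z - w) + 2 * inner ℝ (w : EuclideanSpace ℝ (Fin d))
        ((z : EuclideanSpace ℝ (Fin d)) - w) := by
      have := nn_add w (z - w)
      rw [add_sub_cancel] at this
      rw [this, Submodule.coe_sub]
    have h2 : 0 < nn w := nn_pos hw0
    have h3 : 0 < nn (z - w) := nn_pos (sub_ne_zero.mpr (Ne.symm hwz))
    obtain ⟨l₁, a1, a2, a3⟩ := hgood w (by linarith)
    obtain ⟨l₂, b1, b2, b3⟩ := hgood (z - w) (by linarith)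
    apply hz'
    refine ⟨l₁ ++ l₂, ?_, ?_, ?_⟩
    · intro f hf
      rcases List.mem_append.mp hf with h | h
      · exact a1 f h
      · exact b1 f h
    · rw [List.sum_append, a2, b2]; abel
    · rw [List.map_append, List.sum_append]; linarith

section ext

variable {V : Type*} [AddCommGroup V]

/-- Extreme vectors of a homomorphism. -/
def Ext (φ : L →+ V) (u : L) : Prop :=
  Ind u ∧ φ u ≠ 0 ∧ ∀ l : List L, (∀ f ∈ l, Ind f) → φ l.sum = φ u → nn u ≤ (l.map nn).sum

theorem mem_le_sum (l : List L) (g : L) (hg : g ∈ l) : nn g ≤ (l.map nn).sum := by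
  apply List.single_le_sum
  · intro x hx
    obtain ⟨y, _, rfl⟩ := List.mem_map.mp hx
    exact nn_nonneg y
  · exact List.mem_map_of_mem hg

theorem ext_span {K : Type*} [Field K] [Module K V] (hL : DiscreteTopology L) (φ : L →+ V)
    (f : L) (hf : Ind f) : φ f ∈ Submodule.span K (φ '' {u | Ext φ u}) := by
  by_contra hcon
  obtain ⟨z, hz, hmin⟩ := Pool.Agent.H67.Mink.exists_min_norm hL
    {f : L | Ind f ∧ φ f ∉ Submodule.span K (φ '' {u | Ext φ u})} ⟨f, hf, hcon⟩
  obtain ⟨hzi, hzs⟩ := hz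
  have hz0 : φ z ≠ 0 := by
    intro h
    apply hzs
    rw [h]
    exact Submodule.zero_mem _
  have hze : ¬ Ext φ z := by
    intro h
    apply hzs
    exact Submodule.subset_span ⟨z, h, rfl⟩
  unfold Ext at hze
  push Not at hze
  obtain ⟨l, hl, hls, hlt⟩ := hze hzi hz0
  apply hzs
  rw [← hls]
  have hall : ∀ g ∈ l, φ g ∈ Submodule.span K (φ '' {u | Ext φ u}) := by
    intro g hg
    by_contra hc
    have h1 := hmin g ⟨hl g hg, hc⟩
    have h2 : nn z ≤ nn g := pow_le_pow_left₀ (norm_nonneg _) h1 2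
    have h3 := mem_le_sum l g hg
    linarith
  rw [map_list_sum]
  apply list_sum_mem
  intro x hx
  obtain ⟨y, hy, rfl⟩ := List.mem_map.mp hx
  exact hall y hy

theorem ext_half {W : Type*} [AddCommGroup W] (hL : DiscreteTopology L) (φ : L →+ V)
    (ψ : L →+ W) (hd : ∀ f : L, Ind f → φ f = 0 ∨ ψ f = 0) (u v : L) (hu : Ext φ u)
    (hv : ∀ l : List L, (∀ f ∈ l, Ind f) → ψ l.sum = ψ v → nn v ≤ (l.map nn).sum)
    (hu2 : ψ u = 0) (hv2 : φ v = 0) :
    0 ≤ inner ℝ (u : EuclideanSpace ℝ (Fin d)) (v : EuclideanSpace ℝ (Fin d)) := by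
  classical
  obtain ⟨l, h1, h2, h3⟩ := decomp hL (u + v)
  have key : ∀ l : List L, (∀ f ∈ l, Ind f) →
      ∃ l₁ l₂ : List L, (∀ f ∈ l₁, Ind f) ∧ (∀ f ∈ l₂, Ind f) ∧ φ l₁.sum = φ l.sum ∧
        ψ l₂.sum = ψ l.sum ∧ (l.map nn).sum = (l₁.map nn).sum + (l₂.map nn).sum := by
    intro l
    induction l with
    | nil => intro _; exact ⟨[], [], by simp, by simp, by simp, by simp, by simp⟩
    | cons a l ih =>
      intro hl
      obtain ⟨l₁, l₂, e1, e2, e3, e4, e5⟩ := ih (fun f hf => hl f (List.mem_cons_of_mem _ hf))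
      have ha := hl a List.mem_cons_self
      rcases hd a ha with h | h
      · refine ⟨l₁, a :: l₂, e1, ?_, ?_, ?_, ?_⟩
        · intro f hf
          rcases List.mem_cons.mp hf with h' | h'
          · rw [h']; exact ha
          · exact e2 f h'
        · rw [List.sum_cons, map_add, h, zero_add, e3]
        · rw [List.sum_cons, List.sum_cons, map_add, map_add, e4]
        · rw [List.map_cons, List.sum_cons, List.map_cons, List.sum_cons, e5]; ring
      · refine ⟨a :: l₁, l₂, ?_, e2, ?_, ?_, ?_⟩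
        · intro f hf
          rcases List.mem_cons.mp hf with h' | h'
          · rw [h']; exact ha
          · exact e1 f h'
        · rw [List.sum_cons, List.sum_cons, map_add, map_add, e3]
        · rw [List.sum_cons, map_add, h, zero_add, e4]
        · rw [List.map_cons, List.sum_cons, List.map_cons, List.sum_cons, e5]; ring
  obtain ⟨l₁, l₂, e1, e2, e3, e4, e5⟩ := key l h1
  have f1 : nn u ≤ (l₁.map nn).sum := by
    apply hu.2.2 l₁ e1
    rw [e3, h2, map_add, hv2, add_zero]
  have f2 : nn v ≤ (l₂.map nn).sum := by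
    apply hv l₂ e2
    rw [e4, h2, map_add, hu2, zero_add]
  have f3 := nn_add u v
  linarith

theorem sum_map_neg {M : Type*} [AddCommGroup M] (l : List M) :
    (l.map (fun x => -x)).sum = - l.sum := by
  induction l with
  | nil => simp
  | cons a l ih => rw [List.map_cons, List.sum_cons, List.sum_cons, ih]; abel

theorem ext_orth {W : Type*} [AddCommGroup W] (hL : DiscreteTopology L) (φ : L →+ V)
    (ψ : L →+ W) (hd : ∀ f : L, Ind f → φ f = 0 ∨ ψ f = 0) (u v : L) (hu : Ext φ u)
    (hv : Ext ψ v) :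
    inner ℝ (u : EuclideanSpace ℝ (Fin d)) (v : EuclideanSpace ℝ (Fin d)) = 0 := by
  have hu2 : ψ u = 0 := (hd u hu.1).resolve_left hu.2.1
  have hv2 : φ v = 0 := (hd v hv.1).resolve_right hv.2.1
  have h1 := ext_half hL φ ψ hd u v hu hv.2.2 hu2 hv2
  have h2 := ext_half hL φ ψ hd u (-v) hu (by
    intro l hl hs
    have h3 := hv.2.2 (l.map (fun x => -x)) (by
      intro f hf
      obtain ⟨y, hy, rfl⟩ := List.mem_map.mp hf
      exact (hl y hy).neg) (by
      have h4 : (l.map (fun x => -x)).sum = - l.sum := sum_map_neg l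
      rw [h4, map_neg, hs, map_neg, neg_neg])
    rw [List.map_map] at h3
    have h5 : (nn ∘ fun x : L => -x) = nn := by
      funext x
      simp [nn_neg]
    rw [h5] at h3
    rw [nn_neg]
    exact h3) hu2 (by rw [map_neg, hv2, neg_zero])
  rw [Submodule.coe_neg, inner_neg_right] at h2
  linarith

end ext

end Pool.Agent.H91.FV
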