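import Mathlib

set_option autoImplicit false

/-! The intersection theorem for two matroids, in terms of rank functions on finite sets. -/

namespace Pool.Agent.H91.FV

open Finset

variable {α : Type*} [DecidableEq α]

/-- Rank functions (normalised, monotone, unit increase, submodular). -/
structure IsRk (r : Finset α → ℕ) : Prop where
  emp : r ∅ = 0
  mono : ∀ A B : Finset α, A ⊆ B → r A ≤ r B
  ins : ∀ (a : α) (A : Finset α), r (insert a A) ≤ r A + 1
  sub : ∀ A B : Finset α, r (A ∪ B) + r (A ∩ B) ≤ r A + r B

theorem IsRk.contract {r : Finset α → ℕ} (h : IsRk r) (e : α) (he : r {e} = 1) :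
    IsRk (fun A => r (insert e A) - 1) := by
  have h1 : ∀ A : Finset α, 1 ≤ r (insert e A) := by
    intro A
    rw [← he]
    exact h.mono _ _ (by simp)
  refine ⟨?_, ?_, ?_, ?_⟩
  · simp [he]
  · intro A B hAB
    exact Nat.sub_le_sub_right (h.mono _ _ (insert_subset_insert e hAB)) 1
  · intro a A
    have h2 := h.ins a (insert e A)
    have h3 : insert e (insert a A) = insert a (insert e A) := by
      rw [Finset.insert_comm]
    have h4 := h1 A
    simp only [h3]
    omega
  · intro A B
    have h2 := h.sub (insert e A) (insert e B)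
    have h3 : insert e (A ∪ B) = insert e A ∪ insert e B := by
      ext x; simp only [mem_insert, mem_union]; tauto
    have h4 : insert e (A ∩ B) = insert e A ∩ insert e B := by
      ext x; simp only [mem_insert, mem_inter]; tauto
    have h5 := h1 (A ∪ B)
    have h6 := h1 (A ∩ B)
    have h7 := h1 A
    have h8 := h1 B
    simp only [h3, h4] at *
    omega

/-- Matroid intersection: if `r₁ A + r₂ (S \ A) ≥ k` for all `A ⊆ S`, then some `k` elements of
`S` are independent for both rank functions. -/
theorem inter : ∀ (m : ℕ) (S : Finset α), S.card = m → ∀ (r₁ r₂ : Finset α → ℕ), IsRk r₁ →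
    IsRk r₂ → ∀ k : ℕ, (∀ A : Finset α, A ⊆ S → k ≤ r₁ A + r₂ (S \ A)) →
    ∃ I : Finset α, I ⊆ S ∧ I.card = k ∧ r₁ I = k ∧ r₂ I = k := by
  intro m
  induction m with
  | zero =>
    intro S hS r₁ r₂ h₁ h₂ k hk
    have hS' : S = ∅ := card_eq_zero.mp hS
    subst hS'
    have := hk ∅ (by simp)
    rw [h₁.emp] at this
    simp only [sdiff_self, bot_eq_empty] at this
    rw [h₂.emp] at this
    have hk0 : k = 0 := by omega
    subst hk0
    exact ⟨∅, by simp, by simp, h₁.emp, h₂.emp⟩
  | succ m ih =>
    intro S hS r₁ r₂ h₁ h₂ k hk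
    have hne : S.Nonempty := by rw [← card_pos, hS]; omega
    obtain ⟨e, he⟩ := hne
    have hcard : (S.erase e).card = m := by rw [card_erase_of_mem he, hS]; rfl
    by_cases hc : ∀ A : Finset α, A ⊆ S.erase e → k ≤ r₁ A + r₂ (S.erase e \ A)
    · obtain ⟨I, hI, h3⟩ := ih (S.erase e) hcard r₁ r₂ h₁ h₂ k hc
      exact ⟨I, hI.trans (erase_subset _ _), h3⟩
    · push Not at hc
      obtain ⟨A, hA, hA2⟩ := hc
      have heA : e ∉ A := fun h => by simpa using hA h
      have hAS : A ⊆ S := hA.trans (erase_subset _ _)
      -- `e` is not a loop for `r₁`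
      have hAe : insert e A ⊆ S := insert_subset he hAS
      have e1 : S \ insert e A = S.erase e \ A := by
        ext x; simp only [mem_sdiff, mem_insert, mem_erase]; tauto
      have e2 : S \ A = insert e (S.erase e \ A) := by
        ext x
        simp only [mem_sdiff, mem_insert, mem_erase]
        constructor
        · intro hx
          by_cases hxe : x = e
          · exact Or.inl hxe
          · exact Or.inr ⟨⟨hxe, hx.1⟩, hx.2⟩
        · rintro (hx | hx)
          · rw [hx]; exact ⟨he, heA⟩
          · exact ⟨hx.1.2, hx.2⟩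
      have hl1 : r₁ {e} = 1 := by
        have h3 := hk _ hAe
        rw [e1] at h3
        have h4 := h₁.sub A {e}
        have h5 : A ∪ {e} = insert e A := by rw [union_comm]; rfl
        rw [h5] at h4
        have h6 := h₁.ins e ∅
        rw [h₁.emp] at h6
        have h7 : insert e (∅ : Finset α) = {e} := rfl
        rw [h7] at h6
        omega
      have hl2 : r₂ {e} = 1 := by
        have h3 := hk _ hAS
        rw [e2] at h3
        have h4 := h₂.sub (S.erase e \ A) {e}
        have h5 : (S.erase e \ A) ∪ {e} = insert e (S.erase e \ A) := by rw [union_comm]; rfl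
        rw [h5] at h4
        have h6 := h₂.ins e ∅
        rw [h₂.emp] at h6
        have h7 : insert e (∅ : Finset α) = {e} := rfl
        rw [h7] at h6
        omega
      have hkpos : 1 ≤ k := by omega
      by_cases hd : ∀ B : Finset α, B ⊆ S.erase e →
          k - 1 ≤ (r₁ (insert e B) - 1) + (r₂ (insert e (S.erase e \ B)) - 1)
      · obtain ⟨I, hI, h3, h4, h5⟩ := ih (S.erase e) hcard _ _ (h₁.contract e hl1)
          (h₂.contract e hl2) (k - 1) hd
        have heI : e ∉ I := fun h => by simpa using hI h
        have h6 : 1 ≤ r₁ (insert e I) := by rw [← hl1]; exact h₁.mono _ _ (by simp)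
        have h7 : 1 ≤ r₂ (insert e I) := by rw [← hl2]; exact h₂.mono _ _ (by simp)
        refine ⟨insert e I, insert_subset he (hI.trans (erase_subset _ _)), ?_, ?_, ?_⟩
        · rw [card_insert_of_notMem heI, h3]; omega
        · omega
        · omega
      · exfalso
        push Not at hd
        obtain ⟨B, hB, hB2⟩ := hd
        have hBS : B ⊆ S := hB.trans (erase_subset _ _)
        have heB : e ∉ B := fun h => by simpa using hB h
        have g1 : 1 ≤ r₁ (insert e B) := by rw [← hl1]; exact h₁.mono _ _ (by simp)
        have g2 : 1 ≤ r₂ (insert e (S.erase e \ B)) := by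
          rw [← hl2]; exact h₂.mono _ _ (by simp)
        have s1 := h₁.sub A (insert e B)
        have s2 := h₂.sub (S.erase e \ A) (insert e (S.erase e \ B))
        have c1 : A ∪ insert e B = insert e (A ∪ B) := by
          ext x; simp only [mem_insert, mem_union]; tauto
        have c2 : A ∩ insert e B = A ∩ B := by
          ext x
          simp only [mem_insert, mem_inter]
          constructor
          · rintro ⟨h3, h4 | h4⟩
            · rw [h4] at h3; exact absurd h3 heA
            · exact ⟨h3, h4⟩
          · rintro ⟨h3, h4⟩; exact ⟨h3, Or.inr h4⟩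
        have c3 : (S.erase e \ A) ∪ insert e (S.erase e \ B) = S \ (A ∩ B) := by
          ext x
          simp only [mem_union, mem_sdiff, mem_insert, mem_erase, mem_inter]
          constructor
          · rintro (h3 | h3 | h3)
            · exact ⟨h3.1.2, fun h4 => h3.2 h4.1⟩
            · rw [h3]; exact ⟨he, fun h4 => heA h4.1⟩
            · exact ⟨h3.1.2, fun h4 => h3.2 h4.2⟩
          · rintro ⟨h3, h4⟩
            by_cases hxe : x = e
            · exact Or.inr (Or.inl hxe)
            · by_cases hxA : x ∈ A
              · exact Or.inr (Or.inr ⟨⟨hxe, h3⟩, fun h5 => h4 ⟨hxA, h5⟩⟩)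
              · exact Or.inl ⟨⟨hxe, h3⟩, hxA⟩
        have c4 : (S.erase e \ A) ∩ insert e (S.erase e \ B) = S \ insert e (A ∪ B) := by
          ext x
          simp only [mem_inter, mem_sdiff, mem_insert, mem_erase, mem_union]
          constructor
          · rintro ⟨h3, h4 | h4⟩
            · exact absurd h4 h3.1.1
            · refine ⟨h3.1.2, ?_⟩
              rintro (h5 | h5 | h5)
              · exact h3.1.1 h5
              · exact h3.2 h5
              · exact h4.2 h5
          · rintro ⟨h3, h4⟩
            push Not at h4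
            exact ⟨⟨⟨h4.1, h3⟩, h4.2.1⟩, Or.inr ⟨⟨h4.1, h3⟩, h4.2.2⟩⟩
        rw [c1, c2] at s1
        rw [c3, c4] at s2
        have k1 := hk (insert e (A ∪ B)) (insert_subset he (union_subset hAS hBS))
        have k2 := hk (A ∩ B) (inter_subset_left.trans hAS)
        omega

end Pool.Agent.H91.FV
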