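import Mathlib
import Pool.Agent.H91.FV.Geo
import Pool.Agent.H91.FV.Ranks

set_option autoImplicit false
set_option linter.unusedSectionVars false

/-! Families of extreme vectors are linearly independent over the integers; two orthogonal families
have together at most `n` members. -/

namespace Pool.Agent.H91.FV

open Module

variable {n : ℕ} {L : Submodule ℤ (EuclideanSpace ℝ (Fin n))}

theorem lift_indep {ι : Type*} [Fintype ι] (p : ℕ) [hp : Fact p.Prime] {V : Type*} [AddCommGroup V]
    [Module (ZMod p) V] (φ : L →+ V) (u : ι → L)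
    (h : LinearIndependent (ZMod p) (fun i => φ (u i))) : LinearIndependent ℤ u := by
  rw [Fintype.linearIndependent_iff] at h ⊢
  have key : ∀ (k : ℕ) (g : ι → ℤ), ∑ i, g i • u i = 0 → ∀ i, ((p : ℤ) ^ k) ∣ g i := by
    intro k
    induction k with
    | zero => intro g _ i; simp
    | succ k ih =>
      intro g hg i
      have h1 : ∀ i, (p : ℤ) ∣ g i := by
        intro i
        have h2 : ∑ i, ((g i : ℤ) : ZMod p) • φ (u i) = 0 := by
          have h3 := congrArg φ hg
          rw [map_sum, map_zero] at h3
          rw [← h3]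
          apply Finset.sum_congr rfl
          intro j _
          rw [Int.cast_smul_eq_zsmul, map_zsmul]
        have h4 := h (fun i => ((g i : ℤ) : ZMod p)) h2 i
        exact (ZMod.intCast_zmod_eq_zero_iff_dvd _ _).mp h4
      choose g' hg' using h1
      have h5 : ∑ i, g' i • u i = 0 := by
        have h6 : (p : ℤ) • ∑ i, g' i • u i = 0 := by
          rw [Finset.smul_sum, ← hg]
          apply Finset.sum_congr rfl
          intro j _
          rw [smul_smul, ← hg' j]
        have h6' := congrArg (Subtype.val : L → EuclideanSpace ℝ (Fin n)) h6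
        rw [Submodule.coe_smul, ← Int.cast_smul_eq_zsmul ℝ] at h6'
        rcases smul_eq_zero.mp (h6'.trans Submodule.coe_zero) with h7 | h7
        · exfalso
          have := hp.out.ne_zero
          exact this (by exact_mod_cast h7)
        · exact Subtype.ext h7
      have h8 := ih g' h5 i
      rw [hg' i, pow_succ']
      exact mul_dvd_mul_left _ h8
  intro g hg i
  by_contra hne
  have h1 := key (g i).natAbs g hg i
  have h2 := Int.natAbs_dvd_natAbs.mpr h1
  rw [Int.natAbs_pow, Int.natAbs_natCast] at h2
  have h3 := Nat.le_of_dvd (Int.natAbs_pos.mpr hne) h2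
  have h4 := Nat.lt_pow_self hp.out.one_lt (n := (g i).natAbs)
  omega

theorem ext_top {K : Type*} [Field K] {V : Type*} [AddCommGroup V] [Module K V]
    (hL : DiscreteTopology L) (φ : L →+ V) (hφ : Function.Surjective φ) :
    Submodule.span K (φ '' {u | Ext φ u}) = ⊤ := by
  rw [eq_top_iff]
  intro x _
  obtain ⟨y, rfl⟩ := hφ x
  obtain ⟨l, hl, hs, _⟩ := decomp hL y
  rw [← hs, map_list_sum]
  apply list_sum_mem
  intro z hz
  obtain ⟨f, hf, rfl⟩ := List.mem_map.mp hz
  exact ext_span hL φ f (hl f hf)

theorem exists_ext (hL : DiscreteTopology L) (p : ℕ) [hp : Fact p.Prime] {V : Type*}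
    [AddCommGroup V] [Module (ZMod p) V] [FiniteDimensional (ZMod p) V] (φ : L →+ V)
    (hφ : Function.Surjective φ) :
    ∃ u : Fin (finrank (ZMod p) V) → L, (∀ i, Ext φ (u i)) ∧ LinearIndependent ℤ u := by
  obtain ⟨s, hs1, hs2, hs3⟩ := exists_linearIndependent (ZMod p) (φ '' {u | Ext φ u})
  have htop : Submodule.span (ZMod p) s = ⊤ := by rw [hs2]; exact ext_top hL φ hφ
  have hfin : s.Finite := hs3.setFinite
  have : Fintype s := hfin.fintype
  have hcard : Fintype.card s = finrank (ZMod p) V := by
    let B : Basis s (ZMod p) V := Basis.mk hs3 (by rw [Subtype.range_coe, htop])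
    exact (finrank_eq_card_basis B).symm
  choose u hu using fun x : s => hs1 x.2
  let e : Fin (finrank (ZMod p) V) ≃ s := (Fintype.equivFinOfCardEq hcard).symm
  refine ⟨fun i => u (e i), fun i => (hu (e i)).1, ?_⟩
  apply lift_indep p φ
  have h1 : (fun i => φ (u (e i))) = (fun x : s => (x : V)) ∘ e := by
    funext i
    exact (hu (e i)).2
  rw [h1]
  exact hs3.comp e e.injective

theorem dim_add (hL : DiscreteTopology L) (b : Basis (Fin n) ℤ L) (p q : ℕ) [hp : Fact p.Prime]
    [hq : Fact q.Prime] {V W : Type*} [AddCommGroup V] [Module (ZMod p) V]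
    [FiniteDimensional (ZMod p) V] [AddCommGroup W] [Module (ZMod q) W]
    [FiniteDimensional (ZMod q) W] (φ : L →+ V) (ψ : L →+ W) (hφ : Function.Surjective φ)
    (hψ : Function.Surjective ψ) (hd : ∀ f : L, Ind f → φ f = 0 ∨ ψ f = 0) :
    finrank (ZMod p) V + finrank (ZMod q) W ≤ n := by
  obtain ⟨u, hu1, hu2⟩ := exists_ext hL p φ hφ
  obtain ⟨v, hv1, hv2⟩ := exists_ext hL q ψ hψ
  have horth : ∀ x ∈ Submodule.span ℤ (Set.range u), ∀ y ∈ Submodule.span ℤ (Set.range v),
      inner ℝ (x : EuclideanSpace ℝ (Fin n)) (y : EuclideanSpace ℝ (Fin n)) = 0 := by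
    intro x hx y hy
    induction hx using Submodule.span_induction with
    | mem x hx =>
      obtain ⟨i, rfl⟩ := hx
      induction hy using Submodule.span_induction with
      | mem y hy =>
        obtain ⟨j, rfl⟩ := hy
        exact ext_orth hL φ ψ hd _ _ (hu1 i) (hv1 j)
      | zero => simp
      | add y z _ _ hy hz => rw [Submodule.coe_add, inner_add_right, hy, hz, add_zero]
      | smul a y _ hy =>
        rw [Submodule.coe_smul, ← Int.cast_smul_eq_zsmul ℝ, inner_smul_right, hy, mul_zero]
    | zero => simp
    | add y z _ _ hy hz => rw [Submodule.coe_add, inner_add_left, hy, hz, add_zero]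
    | smul a y _ hy =>
      rw [Submodule.coe_smul, ← Int.cast_smul_eq_zsmul ℝ, inner_smul_left, hy, mul_zero]
  have hdisj : Disjoint (Submodule.span ℤ (Set.range u)) (Submodule.span ℤ (Set.range v)) := by
    rw [Submodule.disjoint_def]
    intro x hx hy
    have h1 := horth x hx x hy
    have h2 := inner_self_eq_zero.mp h1
    exact_mod_cast h2
  have h1 := hu2.sum_type hv2 hdisj
  have : Module.Finite ℤ L := Module.Finite.of_basis b
  have h2 := h1.fintype_card_le_finrank
  rw [Fintype.card_sum, Fintype.card_fin, Fintype.card_fin, finrank_eq_card_basis b,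
    Fintype.card_fin] at h2
  exact h2

end Pool.Agent.H91.FV
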