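import Mathlib
import Pool.Agent.H91.FV.Dim

set_option autoImplicit false
set_option linter.unusedSectionVars false

/-! The main theorem: facet vectors of index prime to two given primes. -/

namespace Pool.Agent.H91.FV

open Module

variable {n : ℕ} {L : Submodule ℤ (EuclideanSpace ℝ (Fin n))}

/-- Reduction modulo `p` of the coordinates in a basis. -/
noncomputable def red (b : Basis (Fin n) ℤ L) (p : ℕ) : L →+ (Fin n → ZMod p) where
  toFun x := fun i => ((b.repr x i : ℤ) : ZMod p)
  map_zero' := by ext; simp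
  map_add' x y := by ext; simp

theorem red_apply (b : Basis (Fin n) ℤ L) (p : ℕ) (x : L) (i : Fin n) :
    red b p x i = ((b.repr x i : ℤ) : ZMod p) := rfl

theorem red_surj (b : Basis (Fin n) ℤ L) (p : ℕ) : Function.Surjective (red b p) := by
  intro y
  choose c hc using fun i => ZMod.intCast_surjective (y i)
  refine ⟨∑ i, c i • b i, ?_⟩
  funext i
  rw [red_apply, ← hc i]
  congr 1
  simp [Finsupp.single_apply]

/-- The rank, modulo `p`, of a finite set of lattice vectors. -/
noncomputable def rk (b : Basis (Fin n) ℤ L) (p : ℕ) [Fact p.Prime] (A : Finset L) : ℕ :=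
  finrank (ZMod p) (Submodule.span (ZMod p) (red b p '' (A : Set L)))

theorem isRk [DecidableEq L] (b : Basis (Fin n) ℤ L) (p : ℕ) [hp : Fact p.Prime] :
    IsRk (rk b p) := by
  refine ⟨?_, ?_, ?_, ?_⟩
  · simp [rk]
  · intro A B hAB
    apply Submodule.finrank_mono
    apply Submodule.span_mono
    exact Set.image_mono (by exact_mod_cast hAB)
  · intro a A
    unfold rk
    rw [Finset.coe_insert, Set.image_insert_eq, Submodule.span_insert]
    have h1 := Submodule.finrank_add_le_finrank_add_finrank
      (Submodule.span (ZMod p) {red b p a}) (Submodule.span (ZMod p) (red b p '' (A : Set L)))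
    have h2 : finrank (ZMod p) (Submodule.span (ZMod p) {red b p a}) ≤ 1 := by
      have := finrank_span_le_card (R := ZMod p) ({red b p a} : Set (Fin n → ZMod p))
      simpa using this
    have h3 : finrank (ZMod p) ↥(Submodule.span (ZMod p) {red b p a} ⊔
        Submodule.span (ZMod p) (red b p '' (A : Set L))) ≤
        finrank (ZMod p) (Submodule.span (ZMod p) {red b p a}) +
        finrank (ZMod p) (Submodule.span (ZMod p) (red b p '' (A : Set L))) := h1
    omega
  · intro A B
    unfold rk
    rw [Finset.coe_union, Set.image_union, Submodule.span_union,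
      ← Submodule.finrank_sup_add_finrank_inf_eq
        (Submodule.span (ZMod p) (red b p '' (A : Set L)))
        (Submodule.span (ZMod p) (red b p '' (B : Set L)))]
    apply Nat.add_le_add_left
    apply Submodule.finrank_mono
    apply le_inf
    · apply Submodule.span_mono
      apply Set.image_mono
      intro x hx
      have : x ∈ A ∩ B := hx
      exact (Finset.mem_inter.mp this).1
    · apply Submodule.span_mono
      apply Set.image_mono
      intro x hx
      have : x ∈ A ∩ B := hx
      exact (Finset.mem_inter.mp this).2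

theorem rk_add (hL : DiscreteTopology L) (b : Basis (Fin n) ℤ L) (p q : ℕ) [hp : Fact p.Prime]
    [hq : Fact q.Prime] (A B : Finset L) (hAB : ∀ f : L, Ind f → f ∈ A ∨ f ∈ B) :
    n ≤ rk b p A + rk b q B := by
  have h1 := dim_add hL b p q
    ((Submodule.mkQ (Submodule.span (ZMod p) (red b p '' (A : Set L)))).toAddMonoidHom.comp
      (red b p))
    ((Submodule.mkQ (Submodule.span (ZMod q) (red b q '' (B : Set L)))).toAddMonoidHom.comp
      (red b q))
    ((Submodule.mkQ_surjective _).comp (red_surj b p))
    ((Submodule.mkQ_surjective _).comp (red_surj b q)) (by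
      intro f hf
      rcases hAB f hf with h | h
      · left
        change Submodule.mkQ _ (red b p f) = 0
        rw [Submodule.mkQ_apply, Submodule.Quotient.mk_eq_zero]
        exact Submodule.subset_span ⟨f, h, rfl⟩
      · right
        change Submodule.mkQ _ (red b q f) = 0
        rw [Submodule.mkQ_apply, Submodule.Quotient.mk_eq_zero]
        exact Submodule.subset_span ⟨f, h, rfl⟩)
  have h2 := Submodule.finrank_quotient_add_finrank
    (Submodule.span (ZMod p) (red b p '' (A : Set L)))
  have h3 := Submodule.finrank_quotient_add_finrank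
    (Submodule.span (ZMod q) (red b q '' (B : Set L)))
  rw [Module.finrank_fin_fun] at h2 h3
  unfold rk
  omega

theorem inner_formula {E : Type*} [NormedAddCommGroup E] [InnerProductSpace ℝ E] (v w : E) :
    inner ℝ w (v - w) = ‖v‖ ^ 2 / 4 - ‖w - (1 / 2 : ℝ) • v‖ ^ 2 := by
  rw [norm_sub_sq_real, norm_smul, inner_sub_right, real_inner_self_eq_norm_sq,
    inner_smul_right, mul_pow]
  norm_num
  ring

/-- There are finitely many indecomposable vectors. -/
theorem ind_finite (hL : DiscreteTopology L) (b : Basis (Fin n) ℤ L) : {v : L | Ind v}.Finite := by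
  have hbound : ∀ v : L, Ind v → ‖(v : EuclideanSpace ℝ (Fin n))‖ ≤
      ∑ i, ‖(b i : EuclideanSpace ℝ (Fin n))‖ := by
    intro v hv
    set w : L := ∑ i, (b.repr v i / 2) • b i with hw
    have h1 : ‖(w : EuclideanSpace ℝ (Fin n)) - (1 / 2 : ℝ) • (v : EuclideanSpace ℝ (Fin n))‖ ≤
        (1 / 2) * ∑ i, ‖(b i : EuclideanSpace ℝ (Fin n))‖ := by
      have h2 : (v : EuclideanSpace ℝ (Fin n)) =
          ∑ i, (b.repr v i : ℝ) • (b i : EuclideanSpace ℝ (Fin n)) := by
        conv_lhs => rw [← b.sum_repr v]
        rw [Submodule.coe_sum]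
        apply Finset.sum_congr rfl
        intro i _
        rw [Submodule.coe_smul, Int.cast_smul_eq_zsmul]
      have h3 : (w : EuclideanSpace ℝ (Fin n)) =
          ∑ i, ((b.repr v i / 2 : ℤ) : ℝ) • (b i : EuclideanSpace ℝ (Fin n)) := by
        rw [hw, Submodule.coe_sum]
        apply Finset.sum_congr rfl
        intro i _
        rw [Submodule.coe_smul, Int.cast_smul_eq_zsmul]
      rw [h3, h2, Finset.smul_sum, ← Finset.sum_sub_distrib, Finset.mul_sum]
      apply (norm_sum_le _ _).trans
      apply Finset.sum_le_sum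
      intro i _
      rw [smul_smul, ← sub_smul, norm_smul]
      apply mul_le_mul_of_nonneg_right _ (norm_nonneg _)
      rw [Real.norm_eq_abs, abs_le]
      have h4 := Int.emod_add_mul_ediv (b.repr v i) 2
      have h5 := Int.emod_nonneg (b.repr v i) (two_ne_zero)
      have h6 := Int.emod_lt_of_pos (b.repr v i) (two_pos)
      have h7 : (b.repr v i : ℝ) = ((b.repr v i % 2 : ℤ) : ℝ) + 2 * ((b.repr v i / 2 : ℤ) : ℝ) := by
        exact_mod_cast h4.symm
      have h8 : (0 : ℝ) ≤ ((b.repr v i % 2 : ℤ) : ℝ) := by exact_mod_cast h5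
      have h9 : ((b.repr v i % 2 : ℤ) : ℝ) ≤ 1 := by
        have : b.repr v i % 2 ≤ 1 := by omega
        exact_mod_cast this
      constructor <;> linarith
    have hv2 : ‖(w : EuclideanSpace ℝ (Fin n)) - (1 / 2 : ℝ) • (v : EuclideanSpace ℝ (Fin n))‖ ≥
        ‖(v : EuclideanSpace ℝ (Fin n))‖ / 2 := by
      have hf := inner_formula (v : EuclideanSpace ℝ (Fin n)) (w : EuclideanSpace ℝ (Fin n))
      have hle : inner ℝ (w : EuclideanSpace ℝ (Fin n))
          ((v : EuclideanSpace ℝ (Fin n)) - (w : EuclideanSpace ℝ (Fin n))) ≤ 0 := by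
        by_cases hw0 : w = 0
        · rw [hw0]; simp
        · by_cases hwv : w = v
          · rw [hwv]; simp
          · exact (hv.2 w hw0 hwv).le
      have h2 : (‖(v : EuclideanSpace ℝ (Fin n))‖ / 2) ^ 2 ≤
          ‖(w : EuclideanSpace ℝ (Fin n)) - (1 / 2 : ℝ) • (v : EuclideanSpace ℝ (Fin n))‖ ^ 2 := by
        have : (‖(v : EuclideanSpace ℝ (Fin n))‖ / 2) ^ 2 =
          ‖(v : EuclideanSpace ℝ (Fin n))‖ ^ 2 / 4 := by ring
        rw [this]
        linarith
      exact (pow_le_pow_iff_left₀ (by positivity) (norm_nonneg _) two_ne_zero).mp h2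
    linarith
  set R := ∑ i, ‖(b i : EuclideanSpace ℝ (Fin n))‖ with hR
  have hfin : Set.Finite (Metric.closedBall (0 : EuclideanSpace ℝ (Fin n)) R ∩
      (L : Set (EuclideanSpace ℝ (Fin n)))) := by
    change ((_ : Set (EuclideanSpace ℝ (Fin n))) ∩ L.toAddSubgroup).Finite
    have : DiscreteTopology L.toAddSubgroup := hL
    exact Metric.finite_isBounded_inter_isClosed DiscreteTopology.isDiscrete
      Metric.isBounded_closedBall inferInstance
  have h1 : ((fun v : L => (v : EuclideanSpace ℝ (Fin n))) '' {v : L | Ind v}).Finite := by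
    apply hfin.subset
    rintro _ ⟨v, hv, rfl⟩
    exact ⟨by simpa using hbound v hv, v.2⟩
  exact h1.of_finite_image (Subtype.val_injective.injOn)

theorem indep_of_rk (b : Basis (Fin n) ℤ L) (p : ℕ) [hp : Fact p.Prime] (I : Finset L)
    (f : Fin n → L) (hf : Set.range f = (I : Set L)) (hI : rk b p I = n) :
    LinearIndependent (ZMod p) (fun i => red b p (f i)) := by
  rw [linearIndependent_iff_card_eq_finrank_span, Fintype.card_fin]
  unfold rk at hI
  rw [← hf, ← Set.range_comp] at hI
  rw [Set.finrank]
  exact hI.symm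

theorem not_dvd_det (b : Basis (Fin n) ℤ L) (p : ℕ) [hp : Fact p.Prime] (f : Fin n → L)
    (h : LinearIndependent (ZMod p) (fun i => red b p (f i))) : ¬ p ∣ (b.det f).natAbs := by
  intro hd
  have h1 : ((b.det f : ℤ) : ZMod p) = 0 := by
    rw [ZMod.intCast_zmod_eq_zero_iff_dvd]
    exact Int.natCast_dvd.mpr hd
  set M : Matrix (Fin n) (Fin n) (ZMod p) := fun i j => red b p (f i) j with hM
  have h2 : IsUnit M := Matrix.linearIndependent_rows_iff_isUnit.mp h
  have h3 : IsUnit M.det := (Matrix.isUnit_iff_isUnit_det M).mp h2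
  have h4 : M.det = ((b.det f : ℤ) : ZMod p) := by
    rw [Basis.det_apply, ← Matrix.det_transpose M]
    have : M.transpose = (b.toMatrix f).map (Int.castRingHom (ZMod p)) := by
      ext i j
      rfl
    rw [this, ← RingHom.mapMatrix_apply, ← RingHom.map_det]
    rfl
  rw [h4, h1] at h3
  exact not_isUnit_zero h3

theorem main (hL : DiscreteTopology L) (b : Basis (Fin n) ℤ L) (p q : ℕ) [hp : Fact p.Prime]
    [hq : Fact q.Prime] : ∃ f : Fin n → L, (∀ i, Ind (f i)) ∧
      (Submodule.span ℤ (Set.range f)).toAddSubgroup.index.Coprime (p * q) := by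
  classical
  set F : Finset L := (ind_finite hL b).toFinset with hF
  have hFm : ∀ v : L, v ∈ F ↔ Ind v := by intro v; simp [hF]
  obtain ⟨I, hIF, hIc, hIp, hIq⟩ := inter F.card F rfl (rk b p) (rk b q) (isRk b p) (isRk b q) n
    (by
      intro A hA
      apply rk_add hL b p q
      intro f hf
      by_cases h : f ∈ A
      · exact Or.inl h
      · exact Or.inr (Finset.mem_sdiff.mpr ⟨(hFm f).mpr hf, h⟩))
  let e : Fin n ≃ I := (I.equivFinOfCardEq hIc).symm
  set f : Fin n → L := fun i => (e i : L) with hf
  have hrange : Set.range f = (I : Set L) := by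
    ext x
    constructor
    · rintro ⟨i, rfl⟩; exact (e i).2
    · intro hx; exact ⟨e.symm ⟨x, hx⟩, by simp [hf]⟩
  have hp1 := indep_of_rk b p I f hrange hIp
  have hq1 := indep_of_rk b q I f hrange hIq
  have hZ : LinearIndependent ℤ f := lift_indep p (red b p) f hp1
  refine ⟨f, fun i => (hFm _).mp (hIF (e i).2), ?_⟩
  have hidx : (Submodule.span ℤ (Set.range f)).toAddSubgroup.index = (b.det f).natAbs := by
    have h1 := AddSubgroup.index_eq_natAbs_det b (Submodule.span ℤ (Set.range f)).toAddSubgroup
      (Basis.span hZ)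
    rw [h1]
    congr 2
    funext i
    exact congrArg Subtype.val (Basis.span_apply hZ i)
  rw [hidx]
  apply Nat.Coprime.mul_right
  · exact ((Nat.Prime.coprime_iff_not_dvd hp.out).mpr (not_dvd_det b p f hp1)).symm
  · exact ((Nat.Prime.coprime_iff_not_dvd hq.out).mpr (not_dvd_det b q f hq1)).symm

end Pool.Agent.H91.FV
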